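import Pool.Agent.Y303.EJ.W
import Pool.Agent.Y427.SK.Ser

/-! Project EJ (MP_a38b17_an), job EJW-4: series against weak gradients (`S_W4`). -/

open Set Filter Topology MeasureTheory Metric

set_option autoImplicit false

namespace Pool.Agent.Y401.EJW

open Pool.Agent.Y5 (E3)
open Pool.Agent.Y303.SK Pool.Agent.Y303.EJ Pool.Agent.Y427.SK

/-- the norm of the gradient -/
noncomputable def N (G : E3 → Fin 3 → E3) (x : E3) : ℝ := √(∑ i : Fin 3, ‖G x i‖ ^ 2)

lemma N_nonneg (G : E3 → Fin 3 → E3) (x : E3) : 0 ≤ N G x := Real.sqrt_nonneg _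

lemma N_sq (G : E3 → Fin 3 → E3) (x : E3) : N G x ^ 2 = ∑ i : Fin 3, ‖G x i‖ ^ 2 :=
  Real.sq_sqrt (Finset.sum_nonneg fun _ _ => sq_nonneg _)

lemma le_N (G : E3 → Fin 3 → E3) (x : E3) (i : Fin 3) : ‖G x i‖ ≤ N G x := by
  apply Real.le_sqrt_of_sq_le
  exact Finset.single_le_sum (f := fun i => ‖G x i‖ ^ 2) (fun _ _ => sq_nonneg _)
    (Finset.mem_univ i)

lemma N_le (G : E3 → Fin 3 → E3) (x : E3) : N G x ≤ ∑ i : Fin 3, ‖G x i‖ := by
  apply Real.sqrt_le_iff.2
  refine ⟨Finset.sum_nonneg fun _ _ => norm_nonneg _, ?_⟩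
  simp only [Fin.sum_univ_three]
  have h0 := norm_nonneg (G x 0)
  have h1 := norm_nonneg (G x 1)
  have h2 := norm_nonneg (G x 2)
  nlinarith [mul_nonneg h0 h1, mul_nonneg h0 h2, mul_nonneg h1 h2]

lemma sum_le (G : E3 → Fin 3 → E3) (x : E3) : ∑ i : Fin 3, ‖G x i‖ ≤ √3 * N G x := by
  rw [N, ← Real.sqrt_mul (by norm_num)]
  apply Real.le_sqrt_of_sq_le
  simp only [Fin.sum_univ_three]
  nlinarith [sq_nonneg (‖G x 0‖ - ‖G x 1‖), sq_nonneg (‖G x 0‖ - ‖G x 2‖),
    sq_nonneg (‖G x 1‖ - ‖G x 2‖)]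

lemma N_memLp {G : E3 → Fin 3 → E3} (hG : ∀ i, MemLp (fun x => G x i) 2 volume) :
    MemLp (N G) 2 volume := by
  have h1 : MemLp (fun x => ∑ i : Fin 3, ‖G x i‖) 2 volume :=
    memLp_finsetSum Finset.univ fun i _ => (hG i).norm
  have hm : AEStronglyMeasurable (N G) volume := by
    refine Real.continuous_sqrt.comp_aestronglyMeasurable ?_
    exact Finset.aestronglyMeasurable_fun_sum _ fun i _ => (hG i).1.norm.pow 2
  refine h1.mono hm (Eventually.of_forall fun x => ?_)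
  rw [Real.norm_eq_abs, abs_of_nonneg (N_nonneg G x), Real.norm_eq_abs]
  exact (N_le G x).trans (le_abs_self _)

/-- the inequality of Cauchy and Schwarz -/
lemma cs2 {f g : E3 → ℝ} (hf : MemLp f 2 volume) (hg : MemLp g 2 volume) (hf0 : ∀ x, 0 ≤ f x)
    (hg0 : ∀ x, 0 ≤ g x) : ∫ x, f x * g x ≤ √(∫ x, f x ^ 2) * √(∫ x, g x ^ 2) := by
  have h2 : ENNReal.ofReal 2 = 2 := by norm_num
  have h := integral_mul_le_Lp_mul_Lq_of_nonneg (μ := (volume : Measure E3))
    (f := f) (g := g) Real.HolderConjugate.two_two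
    (Eventually.of_forall hf0) (Eventually.of_forall hg0) (by rwa [h2]) (by rwa [h2])
  simp only [Real.rpow_two] at h
  rwa [← Real.sqrt_eq_rpow, ← Real.sqrt_eq_rpow] at h

/-- the majorant on `Ω` -/
noncomputable def g1 (Ω : Set E3) (G : E3 → Fin 3 → E3) (x : E3) : ℝ :=
  √3 * (N G x * Ω.indicator (fun _ => (1 : ℝ)) x)

lemma g1_int {Ω : Set E3} (ho : IsOpen Ω) (hb : Bornology.IsBounded Ω) {G : E3 → Fin 3 → E3}
    (hG : ∀ i, MemLp (fun x => G x i) 2 volume) :
    Integrable (g1 Ω G) ∧ ∫ x, g1 Ω G x ≤ √3 * (√(gg G) * √(volume Ω).toReal) := by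
  have h1 : MemLp (Ω.indicator (fun _ => (1 : ℝ))) 2 volume :=
    memLp_indicator_const 2 ho.measurableSet 1 (Or.inr hb.measure_lt_top.ne)
  refine ⟨((N_memLp hG).integrable_mul h1).const_mul _, ?_⟩
  unfold g1
  rw [integral_const_mul]
  have h2 := cs2 (N_memLp hG) h1 (N_nonneg G) fun x => indicator_nonneg (fun _ _ => zero_le_one) x
  have h3 : ∫ x, N G x ^ 2 = gg G := by
    unfold gg
    simp_rw [N_sq]
  have h4 : ∫ x, Ω.indicator (fun _ => (1 : ℝ)) x ^ 2 = (volume Ω).toReal := by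
    have e : ∀ x, Ω.indicator (fun _ => (1 : ℝ)) x ^ 2 = Ω.indicator (fun _ => (1 : ℝ)) x := by
      intro x
      by_cases hx : x ∈ Ω
      · simp [indicator_of_mem hx]
      · simp [indicator_of_notMem hx]
    simp_rw [e]
    rw [integral_indicator ho.measurableSet, setIntegral_const]
    simp [Measure.real]
  rw [h3, h4] at h2
  gcongr

lemma pt1 {Ω : Set E3} {w : E3 → E3} (hw : CS Ω w) (G : E3 → Fin 3 → E3) (x : E3) :
    |∑ i : Fin 3, inner ℝ (G x i) (fderiv ℝ w x (cv i))| ≤ nk 1 w * g1 Ω G x := by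
  by_cases hx : x ∈ Ω
  · have h1 : ∀ i : Fin 3, |inner ℝ (G x i) (fderiv ℝ w x (cv i))| ≤ nk 1 w * ‖G x i‖ := by
      intro i
      refine (abs_real_inner_le_norm _ _).trans ?_
      rw [mul_comm]
      refine mul_le_mul_of_nonneg_right ?_ (norm_nonneg _)
      refine ((fderiv ℝ w x).le_opNorm _).trans ?_
      rw [norm_cv, mul_one]
      exact le_nk1 hw x
    calc |∑ i : Fin 3, inner ℝ (G x i) (fderiv ℝ w x (cv i))|
        ≤ ∑ i : Fin 3, |inner ℝ (G x i) (fderiv ℝ w x (cv i))| := Finset.abs_sum_le_sum_abs _ _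
      _ ≤ ∑ i : Fin 3, nk 1 w * ‖G x i‖ := Finset.sum_le_sum fun i _ => h1 i
      _ = nk 1 w * ∑ i : Fin 3, ‖G x i‖ := by rw [Finset.mul_sum]
      _ ≤ nk 1 w * (√3 * N G x) :=
          mul_le_mul_of_nonneg_left (sum_le G x) (nk_nonneg _ _)
      _ = nk 1 w * g1 Ω G x := by simp [g1, indicator_of_mem hx]
  · have h1 : fderiv ℝ w x = 0 := by
      have : x ∉ tsupport w := fun h => hx (hw.supp h)
      have h2 := support_fderiv_subset ℝ (f := w)
      by_contra hne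
      exact this (h2 hne)
    simp [g1, indicator_of_notMem hx, h1]

lemma pt2 {Ω : Set E3} {w : E3 → E3} (hw : CS Ω w) (v : E3 → E3) (G : E3 → Fin 3 → E3) (x : E3) :
    |inner ℝ (∑ i : Fin 3, v x i • G x i) (w x)| ≤ nk 0 w * (‖v x‖ * N G x) := by
  have h1 : ‖∑ i : Fin 3, v x i • G x i‖ ≤ ‖v x‖ * N G x := by
    calc ‖∑ i : Fin 3, v x i • G x i‖ ≤ ∑ i : Fin 3, ‖v x i • G x i‖ := norm_sum_le _ _
      _ = ∑ i : Fin 3, ‖v x i‖ * ‖G x i‖ := by simp_rw [norm_smul]
      _ ≤ √(∑ i : Fin 3, ‖v x i‖ ^ 2) * √(∑ i : Fin 3, ‖G x i‖ ^ 2) :=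
          Real.sum_mul_le_sqrt_mul_sqrt _ _ _
      _ = ‖v x‖ * N G x := by rw [EuclideanSpace.norm_eq, N]
  calc |inner ℝ (∑ i : Fin 3, v x i • G x i) (w x)|
      ≤ ‖∑ i : Fin 3, v x i • G x i‖ * ‖w x‖ := abs_real_inner_le_norm _ _
    _ ≤ (‖v x‖ * N G x) * nk 0 w :=
        mul_le_mul h1 (le_nk0 hw x) (norm_nonneg _) (mul_nonneg (norm_nonneg _) (N_nonneg G x))
    _ = _ := by ring

lemma g2_int {v : E3 → E3} {G : E3 → Fin 3 → E3} (hv : MemLp v 2 volume)
    (hG : ∀ i, MemLp (fun x => G x i) 2 volume) :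
    Integrable (fun x => ‖v x‖ * N G x) ∧
      ∫ x, ‖v x‖ * N G x ≤ √(ipr v v) * √(gg G) := by
  refine ⟨hv.norm.integrable_mul (N_memLp hG), ?_⟩
  have h2 := cs2 hv.norm (N_memLp hG) (fun x => norm_nonneg _) (N_nonneg G)
  have h3 : ∫ x, N G x ^ 2 = gg G := by
    unfold gg
    simp_rw [N_sq]
  have h4 : ∫ x, ‖v x‖ ^ 2 = ipr v v := by
    unfold ipr
    simp_rw [real_inner_self_eq_norm_sq]
  rwa [h3, h4] at h2

lemma meas1 {Ω : Set E3} {w : E3 → E3} (hw : CS Ω w) {G : E3 → Fin 3 → E3}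
    (hG : ∀ i, MemLp (fun x => G x i) 2 volume) :
    AEStronglyMeasurable (fun x => ∑ i : Fin 3, inner ℝ (G x i) (fderiv ℝ w x (cv i)))
      volume := by
  refine Finset.aestronglyMeasurable_fun_sum _ fun i _ => ?_
  exact (hG i).1.inner ((cs_fcont hw).clm_apply continuous_const).aestronglyMeasurable

lemma meas2 {Ω : Set E3} {w : E3 → E3} (hw : CS Ω w) {v : E3 → E3} {G : E3 → Fin 3 → E3}
    (hv : MemLp v 2 volume) (hG : ∀ i, MemLp (fun x => G x i) 2 volume) :
    AEStronglyMeasurable (fun x => inner ℝ (∑ i : Fin 3, v x i • G x i) (w x)) volume := by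
  refine AEStronglyMeasurable.inner ?_ (cs_cont hw).aestronglyMeasurable
  refine Finset.aestronglyMeasurable_fun_sum _ fun i _ => ?_
  have h1 : AEStronglyMeasurable (fun x => v x i) volume :=
    (EuclideanSpace.proj (𝕜 := ℝ) i : E3 →L[ℝ] ℝ).continuous.comp_aestronglyMeasurable hv.1
  exact h1.smul (hG i).1

/-- Termwise integration with a majorant `u a * g x`. -/
lemma tw {J : Type} [Countable J] {F : J → E3 → ℝ} {u : J → ℝ} {g : E3 → ℝ}
    (hF : ∀ a, AEStronglyMeasurable (F a) volume) (hu : Summable u) (hg : Integrable g)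
    (hb : ∀ a x, |F a x| ≤ u a * g x) :
    HasSum (fun a => ∫ x, F a x) (∫ x, ∑' a, F a x) := by
  have hi : ∀ a, Integrable (F a) := fun a =>
    (hg.const_mul (u a)).mono' (hF a) (Eventually.of_forall fun x => hb a x)
  have hsum : Summable fun a => ∫ x, ‖F a x‖ := by
    refine Summable.of_nonneg_of_le (fun a => integral_nonneg fun x => norm_nonneg _) (fun a => ?_)
      (hu.mul_right (∫ x, g x))
    rw [← integral_const_mul]
    exact integral_mono (hi a).norm (hg.const_mul (u a)) fun x => hb a x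
  exact hasSum_integral_of_summable_integral_norm hi hsum

lemma ser_gf {Ω : Set E3} {ι : Type} [Countable ι] {e : ι → E3 → E3} {z : ι → ℝ}
    (ho : IsOpen Ω) (hb : Bornology.IsBounded Ω) (h : ∀ a, CS Ω (e a))
    (hs : ∀ k : ℕ, Summable (fun a => |z a| * nk k (e a))) {G : E3 → Fin 3 → E3}
    (hG : ∀ i, MemLp (fun x => G x i) 2 volume) :
    HasSum (fun a => z a * gf G (e a)) (gf G (ser e z)) := by
  have h1 : ∀ x, ∑ k : Fin 3, inner ℝ (G x k) (fderiv ℝ (ser e z) x (cv k)) =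
      ∑' a, z a * ∑ k : Fin 3, inner ℝ (G x k) (fderiv ℝ (e a) x (cv k)) := by
    intro x
    have h2 : ∀ k : Fin 3, HasSum (fun b => z b * inner ℝ (G x k)
        (fderiv ℝ (e b) x (cv k)))
        (inner ℝ (G x k) (fderiv ℝ (ser e z) x (cv k))) := by
      intro k
      have h3 := ((innerSL ℝ (G x k)).comp
        (ContinuousLinearMap.apply ℝ E3 (cv k))).hasSum (sum1 h hs x).hasSum
      rw [← ser_fderiv h hs] at h3
      simp only [ContinuousLinearMap.comp_apply, ContinuousLinearMap.apply_apply,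
        innerSL_apply_apply, _root_.smul_apply, inner_smul_right] at h3
      exact h3
    have h4 := hasSum_sum (s := Finset.univ) fun (k : Fin 3) _ => h2 k
    rw [← h4.tsum_eq]
    refine tsum_congr fun b => ?_
    rw [Finset.mul_sum]
  have h5 := tw (F := fun a x => z a * ∑ k : Fin 3, inner ℝ (G x k) (fderiv ℝ (e a) x (cv k)))
    (u := fun a => |z a| * nk 1 (e a)) (g := g1 Ω G)
    (fun a => (meas1 (h a) hG).const_mul (z a)) (hs 1) (g1_int ho hb hG).1 (fun a x => by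
      rw [abs_mul, mul_assoc]
      exact mul_le_mul_of_nonneg_left (pt1 (h a) G x) (abs_nonneg _))
  simp_rw [← h1] at h5
  unfold gf
  simpa only [integral_const_mul] using h5

lemma ser_av {Ω : Set E3} {ι : Type} [Countable ι] {e : ι → E3 → E3} {z : ι → ℝ}
    (h : ∀ a, CS Ω (e a))
    (hs : ∀ k : ℕ, Summable (fun a => |z a| * nk k (e a))) {v : E3 → E3} {G : E3 → Fin 3 → E3}
    (hv : MemLp v 2 volume) (hG : ∀ i, MemLp (fun x => G x i) 2 volume) :
    HasSum (fun a => z a * av v G (e a)) (av v G (ser e z)) := by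
  have h1 : ∀ x, inner ℝ (∑ i : Fin 3, v x i • G x i) (ser e z x) =
      ∑' a, z a * inner ℝ (∑ i : Fin 3, v x i • G x i) (e a x) := by
    intro x
    have h2 := (innerSL ℝ (∑ i : Fin 3, v x i • G x i)).map_tsum (sum0 h hs x)
    simp only [innerSL_apply_apply, inner_smul_right] at h2
    exact h2
  have h5 := tw (F := fun a x => z a * inner ℝ (∑ i : Fin 3, v x i • G x i) (e a x))
    (u := fun a => |z a| * nk 0 (e a)) (g := fun x => ‖v x‖ * N G x)
    (fun a => (meas2 (h a) hv hG).const_mul (z a)) (hs 0) (g2_int hv hG).1 (fun a x => by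
      rw [abs_mul, mul_assoc]
      exact mul_le_mul_of_nonneg_left (pt2 (h a) v G x) (abs_nonneg _))
  simp_rw [← h1] at h5
  unfold av
  simpa only [integral_const_mul] using h5

theorem t_W4 : S_W4 := by
  intro Ω ho hb
  set V : ℝ := (volume Ω).toReal with hV
  refine ⟨√3 * √V + 1, by positivity, ?_⟩
  intro ι e hc h v G hv hG
  refine ⟨fun a => ⟨?_, ?_⟩, fun z hs => ⟨ser_gf ho hb h hs hG, ser_av h hs hv hG⟩⟩
  · obtain ⟨i1, i2⟩ := g1_int ho hb hG
    have h1 : ‖gf G (e a)‖ ≤ ∫ x, nk 1 (e a) * g1 Ω G x :=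
      norm_integral_le_of_norm_le (i1.const_mul _) (Eventually.of_forall fun x => pt1 (h a) G x)
    rw [integral_const_mul, Real.norm_eq_abs] at h1
    have hn := nk_nonneg 1 (e a)
    calc |gf G (e a)| ≤ nk 1 (e a) * ∫ x, g1 Ω G x := h1
      _ ≤ nk 1 (e a) * (√3 * (√(gg G) * √V)) := by gcongr
      _ = (√3 * √V) * nk 1 (e a) * √(gg G) := by ring
      _ ≤ (√3 * √V + 1) * nk 1 (e a) * √(gg G) := by gcongr; linarith
  · obtain ⟨i1, i2⟩ := g2_int hv hG
    have h1 : ‖av v G (e a)‖ ≤ ∫ x, nk 0 (e a) * (‖v x‖ * N G x) :=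
      norm_integral_le_of_norm_le (i1.const_mul _) (Eventually.of_forall fun x => pt2 (h a) v G x)
    rw [integral_const_mul, Real.norm_eq_abs] at h1
    have hn := nk_nonneg 0 (e a)
    calc |av v G (e a)| ≤ nk 0 (e a) * ∫ x, ‖v x‖ * N G x := h1
      _ ≤ nk 0 (e a) * (√(ipr v v) * √(gg G)) := by gcongr
      _ = 1 * nk 0 (e a) * (√(ipr v v) * √(gg G)) := by ring
      _ ≤ (√3 * √V + 1) * nk 0 (e a) * (√(ipr v v) * √(gg G)) := by
          gcongr
          have : 0 ≤ √3 * √V := by positivity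
          linarith

end Pool.Agent.Y401.EJW

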