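import Pool.Agent.Y7.EJ.StmO

/-! Project EJ (MP_a38b17_an), job EJ-ERR: errors in the equations of the main modes (`S_ERR`). -/

open Set Filter Topology MeasureTheory

set_option autoImplicit false

namespace Pool.Agent.Y401.EJ

open Pool.Agent.Y5 Pool.Agent.Y5.D Pool.Agent.Y7.EJ

section seq

variable {lm L C ℓ M hh : ℕ → ℝ} {B : ℕ → ℕ → ℝ}

lemma h1' (q : SeqP lm L C ℓ M hh B) (n : ℕ) : hh n ≤ 1 := by linarith [hh9 q n]

lemma hsucc (q : SeqP lm L C ℓ M hh B) (n : ℕ) : hh (n + 1) ≤ hh n := by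
  have := q.hh_succ n
  have := q.hh_pos n
  linarith

lemma hh8p (q : SeqP lm L C ℓ M hh B) (n : ℕ) : 0 < hh n ^ 8 := pow_pos (q.hh_pos n) _

lemma lminv (q : SeqP lm L C ℓ M hh B) (n : ℕ) : (lm n)⁻¹ ≤ hh n ^ 8 := by
  rw [inv_le_iff_one_le_mul₀ (slm q n), mul_comm]
  exact q.hh_lm n

lemma Lprev (q : SeqP lm L C ℓ M hh B) (n : ℕ) : L n ≤ hh (n + 1) ^ 8 * L (n + 1) := by
  rw [← q.lm_succ n]
  have h := q.hh_lm (n + 1)
  have h2 := sLp q n
  calc L n = 1 * L n := (one_mul _).symm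
    _ ≤ (lm (n + 1) * hh (n + 1) ^ 8) * L n := by gcongr
    _ = _ := by ring

lemma ell_le (q : SeqP lm L C ℓ M hh B) (n : ℕ) : ℓ n ≤ hh n ^ 8 * L n := by
  rcases n with _ | n
  · have h := q.ℓ_zero
    have h1 := q.hh_lm 0
    have h2 := q.ℓ_nonneg 0
    have h3 := hh8p q 0
    have h4 := sLp q 0
    have h5 : hh 0 ^ 2 ≤ 1 := pow_le_one₀ (q.hh_pos 0).le (h1' q 0)
    calc ℓ 0 = ℓ 0 * 1 := (mul_one _).symm
      _ ≤ ℓ 0 * (lm 0 * hh 0 ^ 8) := by gcongr
      _ = (ℓ 0 * lm 0) * hh 0 ^ 8 := by ring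
      _ ≤ (hh 0 ^ 2 * L 0) * hh 0 ^ 8 := by gcongr
      _ ≤ (1 * L 0) * hh 0 ^ 8 := by gcongr
      _ = _ := by ring
  · have h := q.ℓ_succ n
    have h1 := sLp q n
    have h2 : hh n ^ 4 ≤ 1 := pow_le_one₀ (q.hh_pos n).le (h1' q n)
    calc ℓ (n + 1) ≤ hh n ^ 4 * L n := h
      _ ≤ 1 * L n := by gcongr
      _ = L n := one_mul _
      _ ≤ _ := Lprev q n

lemma Lsum (q : SeqP lm L C ℓ M hh B) (n : ℕ) :
    ∑ i ∈ Finset.range (n + 1), L i ≤ 11 / 10 * L n := by
  induction n with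
  | zero => simp; linarith [sLp q 0]
  | succ n ih =>
    rw [Finset.sum_range_succ]
    have := sLs q n
    have := sLp q n
    linarith

lemma C_le (q : SeqP lm L C ℓ M hh B) (n : ℕ) : C n ≤ hh n ^ 8 := by
  refine le_trans ?_ (lminv q n)
  rw [q.C_eq n, Real.exp_neg]
  apply inv_anti₀ (slm q n)
  have h1 := Real.add_one_le_exp (Real.pi / 2 * lm n)
  have h2 := Real.pi_gt_three
  have h3 := slm q n
  nlinarith

lemma lmC_le (q : SeqP lm L C ℓ M hh B) (n : ℕ) : lm (n + 1) * C (n + 1) ≤ hh n ^ 8 := by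
  have h3 := slm q (n + 1)
  have h4 : lm (n + 1) * C (n + 1) ≤ (lm (n + 1))⁻¹ := by
    rw [q.C_eq, Real.exp_neg, ← div_eq_mul_inv, div_le_iff₀ (Real.exp_pos _)]
    have h1 := Real.quadratic_le_exp_of_nonneg (x := Real.pi / 2 * lm (n + 1))
      (by have := Real.pi_pos; positivity)
    have h2 := Real.pi_gt_three
    have h5 : lm (n + 1) ^ 2 ≤ Real.exp (Real.pi / 2 * lm (n + 1)) := by
      refine le_trans ?_ h1
      have e : (Real.pi / 2 * lm (n + 1)) ^ 2 / 2 = (Real.pi ^ 2 / 8) * lm (n + 1) ^ 2 := by ring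
      have h6 : 1 ≤ Real.pi ^ 2 / 8 := by nlinarith
      have h7 : 0 ≤ Real.pi / 2 * lm (n + 1) := by positivity
      have h8 : 1 * lm (n + 1) ^ 2 ≤ (Real.pi ^ 2 / 8) * lm (n + 1) ^ 2 := by gcongr
      linarith
    calc lm (n + 1) = (lm (n + 1))⁻¹ * lm (n + 1) ^ 2 := by field_simp
      _ ≤ _ := by gcongr
  have h5 : hh (n + 1) ^ 8 ≤ hh n ^ 8 := by
    have := hsucc q n
    have := (q.hh_pos (n + 1)).le
    gcongr
  exact (h4.trans (lminv q (n + 1))).trans h5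

lemma ph0_le (q : SeqP lm L C ℓ M hh B) (n : ℕ) : ph lm 0 ≤ hh n ^ 8 * L n := by
  rcases n with _ | n
  · have h1 : ph lm 0 ≤ (lm 0)⁻¹ := by
      rw [ph, Real.exp_neg]
      apply inv_anti₀ (slm q 0)
      linarith [Real.add_one_le_exp (lm 0)]
    have h2 := lminv q 0
    have h3 := hh8p q 0
    have h4 := sL1 q 0
    calc ph lm 0 ≤ hh 0 ^ 8 * 1 := by linarith
      _ ≤ _ := by gcongr
  · have h1 : ph lm 0 ≤ 1 := Real.exp_le_one_iff.2 (by have := slm q 0; linarith)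
    have h2 := sL1 q n
    have h3 := Lprev q n
    linarith

lemma phn_le (q : SeqP lm L C ℓ M hh B) (n : ℕ) : ph lm n ≤ ph lm 0 := by
  apply Real.exp_le_exp.2
  have := slmmono q (Nat.zero_le n)
  linarith

end seq

variable {lm L C ℓ M hh : ℕ → ℝ} {B : ℕ → ℕ → ℝ} {T : ℝ} {x f : ℕ → ℝ → ℝ}

lemma U_le (g : Gd lm L C ℓ M hh B T x f) {t : ℝ} (ht : t ∈ Ico 0 T) (n : ℕ) :
    U L x n t ≤ 11 / 10 * (hh n ^ 8 * L n) := by
  have q := g.sq
  rcases n with _ | n
  · have := hh8p q 0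
    have := sLp q 0
    simp only [Y7.EJ.U, Finset.range_zero, Finset.sum_empty]
    positivity
  · calc Y7.EJ.U L x (n + 1) t ≤ ∑ i ∈ Finset.range (n + 1), L i := by
          refine Finset.sum_le_sum fun i _ => ?_
          have h1 := g.abs_le_one ht i
          have h2 := sLp q i
          calc L i * |x i t| ≤ L i * 1 := by gcongr
            _ = L i := mul_one _
      _ ≤ 11 / 10 * L n := Lsum q n
      _ ≤ _ := by
          have := Lprev q n
          gcongr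

lemma src_le (g : Gd lm L C ℓ M hh B T x f) {t : ℝ} (ht : t ∈ Ico 0 T) (n : ℕ) :
    src L C x n t ≤ hh n ^ 8 * L n := by
  have q := g.sq
  rcases n with _ | n
  · have := hh8p q 0
    have := sLp q 0
    simp only [src, if_true]
    positivity
  · simp only [src, Nat.add_sub_cancel, Nat.succ_ne_zero, if_false]
    have h1 : x n t ^ 2 ≤ 1 := by
      rw [← sq_abs]
      exact pow_le_one₀ (abs_nonneg _) (g.abs_le_one ht n)
    have h2 := sLp q n
    have h3 := sCp q n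
    have h4 := sC1 q n
    calc L n * C n * x n t ^ 2 ≤ L n * 1 * 1 := by gcongr
      _ = L n := by ring
      _ ≤ _ := Lprev q n

/-- the sum over the higher modes -/
lemma tail_split (g : Gd lm L C ℓ M hh B T x f) {t : ℝ} (ht : t ∈ Ico 0 T) (n : ℕ) :
    ∑' m : ℕ, B n (n + 1 + m) * x (n + 1 + m) t ^ 2 = B n (n + 1) * x (n + 1) t ^ 2 +
      ∑' m : ℕ, B n (n + 2 + m) * x (n + 2 + m) t ^ 2 := by
  rw [(g.tsB ht (i := n) (m := n + 1) (by omega)).1.tsum_eq_zero_add]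
  congr 1
  refine tsum_congr fun l => ?_
  have : n + 1 + (l + 1) = n + 2 + l := by omega
  rw [this]

lemma err1 (g : Gd lm L C ℓ M hh B T x f) {t : ℝ} (ht : t ∈ Ico 0 T) (n : ℕ) :
    |vf3 L C ℓ B (fun k => x k t) n + f n t + L n * x (n + 1) t ^ 2|
      ≤ 10 * hh n ^ 8 * L n + 2 * L n * Y x (n + 2) t := by
  have q := g.sq
  have hL := sLp q n
  have hx := g.abs_le_one ht n
  have hx1 := g.abs_le_one ht (n + 1)
  have hh8 := hh8p q n
  set E := hh n ^ 8 * L n with hE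
  have hE0 : 0 < E := by positivity
  have t1 : |ℓ n * x n t| ≤ E := by
    rw [abs_mul, abs_of_nonneg (q.ℓ_nonneg n)]
    have := ell_le q n
    have := q.ℓ_nonneg n
    calc ℓ n * |x n t| ≤ ℓ n * 1 := by gcongr
      _ ≤ E := by linarith
  have t2 : |src L C x n t| ≤ E := by
    rw [abs_of_nonneg (Gd.src_nonneg q n t)]
    exact src_le g ht n
  have t3 : |L n * C n * x n t * x (n + 1) t| ≤ E := by
    rw [abs_mul, abs_mul, abs_mul, abs_of_pos hL, abs_of_pos (sCp q n)]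
    have h1 := C_le q n
    have h2 := sCp q n
    calc L n * C n * |x n t| * |x (n + 1) t| ≤ L n * hh n ^ 8 * 1 * 1 := by gcongr
      _ = E := by rw [hE]; ring
  have t4 : |x n t * ∑ i ∈ Finset.range n, L i * B i n * x i t| ≤ 2 * E := by
    rw [abs_mul]
    have h1 := Gd.strain (x := x) q (le_refl n) t
    have h2 := U_le g ht n
    have h3 := Gd.U_nonneg (x := x) q n t
    calc |x n t| * |∑ i ∈ Finset.range n, L i * B i n * x i t|
        ≤ 1 * (1001 / 1000 * U L x n t) := by gcongr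
      _ ≤ 2 * E := by linarith
  obtain ⟨_, s0, s1⟩ := g.tsB ht (i := n) (m := n + 2) (by omega)
  have hY0 := Gd.Y_nonneg (x := x) (n + 2) t
  have t5 : |L n * x (n + 1) t ^ 2 - L n * (B n (n + 1) * x (n + 1) t ^ 2)| ≤ E := by
    have h1 := q.B_lo n (n + 1) (by omega)
    have h2 := q.B_hi n (n + 1) (by omega)
    have h3 : (lm (n + 1))⁻¹ ≤ hh n ^ 8 := by
      refine (lminv q (n + 1)).trans ?_
      have := hsucc q n
      have := (q.hh_pos (n + 1)).le
      gcongr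
    have h4 : |1 - B n (n + 1)| ≤ hh n ^ 8 := by
      rw [abs_le]; constructor <;> linarith
    have e : L n * x (n + 1) t ^ 2 - L n * (B n (n + 1) * x (n + 1) t ^ 2)
        = L n * (1 - B n (n + 1)) * x (n + 1) t ^ 2 := by ring
    rw [e, abs_mul, abs_mul, abs_pow, abs_of_pos hL]
    calc L n * |1 - B n (n + 1)| * |x (n + 1) t| ^ 2 ≤ L n * hh n ^ 8 * 1 ^ 2 := by gcongr
      _ = E := by rw [hE]; ring
  have t6 : |f n t| ≤ 2 * E := by
    have h1 := g.hf n t ht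
    have h2 := ph0_le q n
    have h3 := phn_le q n
    have h4 := ph_pos lm 0
    have h5 : ph lm 0 * |x n t| ≤ ph lm 0 * 1 := by gcongr
    linarith
  have hs : L n * ∑' m : ℕ, B n (n + 2 + m) * x (n + 2 + m) t ^ 2
      ≤ 2 * L n * Y x (n + 2) t := by
    calc L n * ∑' m : ℕ, B n (n + 2 + m) * x (n + 2 + m) t ^ 2
        ≤ L n * (1001 / 1000 * Y x (n + 2) t) := by gcongr
      _ ≤ L n * (2 * Y x (n + 2) t) := by gcongr; norm_num
      _ = _ := by ring
  have hs0 : 0 ≤ L n * ∑' m : ℕ, B n (n + 2 + m) * x (n + 2 + m) t ^ 2 := mul_nonneg hL.le s0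
  have key : vf3 L C ℓ B (fun k => x k t) n + f n t + L n * x (n + 1) t ^ 2
      = -(ℓ n * x n t) + src L C x n t - L n * C n * x n t * x (n + 1) t
        + x n t * ∑ i ∈ Finset.range n, L i * B i n * x i t
        + (L n * x (n + 1) t ^ 2 - L n * (B n (n + 1) * x (n + 1) t ^ 2))
        - L n * ∑' m : ℕ, B n (n + 2 + m) * x (n + 2 + m) t ^ 2 + f n t := by
    unfold vf3 src
    rw [tail_split g ht n]
    ring
  rw [key]
  have e2 : 10 * hh n ^ 8 * L n = 10 * E := by rw [hE]; ring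
  rw [e2]
  rw [abs_le] at *
  constructor <;> linarith [t1.1, t1.2, t2.1, t2.2, t3.1, t3.2, t4.1, t4.2, t5.1, t5.2, t6.1, t6.2]

lemma err3 (g : Gd lm L C ℓ M hh B T x f) {t : ℝ} (ht : t ∈ Ico 0 T) (n : ℕ) :
    |vf3 L C ℓ B (fun k => x k t) (n + 1) + f (n + 1) t
        - (L n * x n t * x (n + 1) t + L n * C n * x n t ^ 2)|
      ≤ 2 * hh n ^ 4 * L n * |x (n + 1) t| + 2 * L (n + 1) * Y x (n + 2) t + ph lm (n + 1) := by
  have q := g.sq
  have hL := sLp q n
  have hL1 := sLp q (n + 1)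
  have hx := g.abs_le_one ht n
  have hx1 := g.abs_le_one ht (n + 1)
  have hx2 := g.abs_le_one ht (n + 2)
  have hh8 := hh8p q n
  have hax := abs_nonneg (x (n + 1) t)
  set E := hh n ^ 8 * L n * |x (n + 1) t| with hE
  have hE0 : 0 ≤ E := by positivity
  set F := hh n ^ 4 * L n * |x (n + 1) t| with hF
  have hF0 : 0 ≤ F := by
    have := q.hh_pos n
    positivity
  have hEF : 5 * E ≤ F := by
    have h1 := h1' q n
    have h0 := q.hh_pos n
    have h2 : 5 * hh n ^ 4 ≤ 1 := by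
      have h9 := hh9 q n
      have : hh n ^ 4 ≤ (1 / 10 ^ 9) ^ 4 := by gcongr
      norm_num at this
      linarith
    calc 5 * E = (5 * hh n ^ 4) * F := by rw [hE, hF]; ring
      _ ≤ 1 * F := by gcongr
      _ = F := one_mul _
  have t1 : |ℓ (n + 1) * x (n + 1) t| ≤ F := by
    rw [abs_mul, abs_of_nonneg (q.ℓ_nonneg _), hF]
    have := q.ℓ_succ n
    gcongr
  have t3 : |L (n + 1) * C (n + 1) * x (n + 1) t * x (n + 2) t| ≤ E := by
    rw [abs_mul, abs_mul, abs_mul, abs_of_pos hL1, abs_of_pos (sCp q (n + 1))]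
    have h1 := lmC_le q n
    have h2 := sCp q (n + 1)
    calc L (n + 1) * C (n + 1) * |x (n + 1) t| * |x (n + 2) t|
        ≤ L (n + 1) * C (n + 1) * |x (n + 1) t| * 1 := by gcongr
      _ = (lm (n + 1) * C (n + 1)) * L n * |x (n + 1) t| := by rw [← q.lm_succ n]; ring
      _ ≤ hh n ^ 8 * L n * |x (n + 1) t| := by gcongr
      _ = E := by rw [hE]
  have t4 : |x (n + 1) t * ∑ i ∈ Finset.range n, L i * B i (n + 1) * x i t| ≤ 2 * E := by
    rw [abs_mul]
    have h1 := Gd.strain (x := x) q (Nat.le_succ n) t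
    have h2 := U_le g ht n
    have h3 := Gd.U_nonneg (x := x) q n t
    calc |x (n + 1) t| * |∑ i ∈ Finset.range n, L i * B i (n + 1) * x i t|
        ≤ |x (n + 1) t| * (1001 / 1000 * U L x n t) := by gcongr
      _ ≤ |x (n + 1) t| * (2 * (hh n ^ 8 * L n)) := by
          have : 0 < hh n ^ 8 * L n := by positivity
          have h5 : 1001 / 1000 * U L x n t ≤ 2 * (hh n ^ 8 * L n) := by linarith
          exact mul_le_mul_of_nonneg_left h5 hax
      _ = 2 * E := by rw [hE]; ring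
  obtain ⟨_, s0, s1⟩ := g.tsB ht (i := n + 1) (m := n + 2) (by omega)
  have hY0 := Gd.Y_nonneg (x := x) (n + 2) t
  have t5 : |x (n + 1) t * (L n * B n (n + 1) * x n t) - L n * x n t * x (n + 1) t| ≤ E := by
    have h1 := q.B_lo n (n + 1) (by omega)
    have h2 := q.B_hi n (n + 1) (by omega)
    have h3 : (lm (n + 1))⁻¹ ≤ hh n ^ 8 := by
      refine (lminv q (n + 1)).trans ?_
      have := hsucc q n
      have := (q.hh_pos (n + 1)).le
      gcongr
    have h4 : |B n (n + 1) - 1| ≤ hh n ^ 8 := by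
      rw [abs_le]; constructor <;> linarith
    have e : x (n + 1) t * (L n * B n (n + 1) * x n t) - L n * x n t * x (n + 1) t
        = L n * (B n (n + 1) - 1) * x n t * x (n + 1) t := by ring
    rw [e, abs_mul, abs_mul, abs_mul, abs_of_pos hL]
    calc L n * |B n (n + 1) - 1| * |x n t| * |x (n + 1) t|
        ≤ L n * hh n ^ 8 * 1 * |x (n + 1) t| := by gcongr
      _ = E := by rw [hE]; ring
  have t6 : |f (n + 1) t| ≤ E + ph lm (n + 1) := by
    have h1 := g.hf (n + 1) t ht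
    have h2 := ph0_le q n
    have h5 : ph lm 0 * |x (n + 1) t| ≤ E := by rw [hE]; gcongr
    linarith
  have hs : L (n + 1) * ∑' m : ℕ, B (n + 1) (n + 2 + m) * x (n + 2 + m) t ^ 2
      ≤ 2 * L (n + 1) * Y x (n + 2) t := by
    calc L (n + 1) * ∑' m : ℕ, B (n + 1) (n + 2 + m) * x (n + 2 + m) t ^ 2
        ≤ L (n + 1) * (1001 / 1000 * Y x (n + 2) t) := by gcongr
      _ ≤ L (n + 1) * (2 * Y x (n + 2) t) := by gcongr; norm_num
      _ = _ := by ring
  have hs0 : 0 ≤ L (n + 1) * ∑' m : ℕ, B (n + 1) (n + 2 + m) * x (n + 2 + m) t ^ 2 :=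
    mul_nonneg hL1.le s0
  have key : vf3 L C ℓ B (fun k => x k t) (n + 1) + f (n + 1) t
        - (L n * x n t * x (n + 1) t + L n * C n * x n t ^ 2)
      = -(ℓ (n + 1) * x (n + 1) t) - L (n + 1) * C (n + 1) * x (n + 1) t * x (n + 2) t
        + x (n + 1) t * ∑ i ∈ Finset.range n, L i * B i (n + 1) * x i t
        + (x (n + 1) t * (L n * B n (n + 1) * x n t) - L n * x n t * x (n + 1) t)
        - L (n + 1) * ∑' m : ℕ, B (n + 1) (n + 2 + m) * x (n + 2 + m) t ^ 2 + f (n + 1) t := by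
    unfold vf3
    rw [Finset.sum_range_succ, if_neg (Nat.succ_ne_zero n), Nat.add_sub_cancel]
    ring
  rw [key]
  have e2 : 2 * hh n ^ 4 * L n * |x (n + 1) t| = 2 * F := by rw [hF]; ring
  rw [e2]
  rw [abs_le] at t1 t3 t4 t5 t6 ⊢
  constructor <;> linarith [t1.1, t1.2, t3.1, t3.2, t4.1, t4.2, t5.1, t5.2, t6.1, t6.2]

lemma err2 (g : Gd lm L C ℓ M hh B T x f) {t : ℝ} (ht : t ∈ Ico 0 T) (n : ℕ) :
    |vf3 L C ℓ B (fun k => x k t) (n + 1) + f (n + 1) t - L n * x n t * x (n + 1) t|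
      ≤ 3 * hh n ^ 4 * L n + 2 * L (n + 1) * Y x (n + 2) t := by
  have q := g.sq
  have h := err3 g ht n
  have hL := sLp q n
  have hh0 := q.hh_pos n
  have h1 : L n * C n * x n t ^ 2 ≤ hh n ^ 8 * L n := by
    have h1 : x n t ^ 2 ≤ 1 := by
      rw [← sq_abs]
      exact pow_le_one₀ (abs_nonneg _) (g.abs_le_one ht n)
    have h2 := C_le q n
    have h3 := sCp q n
    calc L n * C n * x n t ^ 2 ≤ L n * hh n ^ 8 * 1 := by gcongr
      _ = _ := by ring
  have h1' : 0 ≤ L n * C n * x n t ^ 2 := by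
    have := sCp q n
    positivity
  have h2 : ph lm (n + 1) ≤ hh n ^ 8 * L n := (phn_le q (n + 1)).trans (ph0_le q n)
  have h3 : 2 * hh n ^ 4 * L n * |x (n + 1) t| ≤ 2 * hh n ^ 4 * L n := by
    have := g.abs_le_one ht (n + 1)
    calc 2 * hh n ^ 4 * L n * |x (n + 1) t| ≤ 2 * hh n ^ 4 * L n * 1 := by gcongr
      _ = _ := mul_one _
  have h4 : 2 * (hh n ^ 8 * L n) ≤ hh n ^ 4 * L n := by
    have h9 := hh9 q n
    have h5 : 2 * hh n ^ 4 ≤ 1 := by
      have : hh n ^ 4 ≤ (1 / 10 ^ 9) ^ 4 := by gcongr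
      norm_num at this
      linarith
    calc 2 * (hh n ^ 8 * L n) = (2 * hh n ^ 4) * (hh n ^ 4 * L n) := by ring
      _ ≤ 1 * (hh n ^ 4 * L n) := by gcongr
      _ = _ := one_mul _
  rw [abs_le] at h ⊢
  constructor <;> nlinarith [h.1, h.2]

theorem t_ERR : S_ERR := fun _ _ _ _ _ _ _ _ _ _ g _ ht =>
  ⟨fun n => err1 g ht n, fun n => err2 g ht n, fun n => err3 g ht n⟩

end Pool.Agent.Y401.EJ

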